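import Pool.Agent.Lib.MP_4fbe7c_an.WN.Base

/-!
Project WN, module LOB (helper31): if the functional is close to its minimum and `f 0` is not much
larger than `θ`, then the state is close to the steady state.
-/

set_option autoImplicit false

open Set MeasureTheory

namespace Pool.Agent.Lib.MP_4fbe7c_an.WN.H31

open Pool.Agent.Lib.MP_4fbe7c_an.UL Pool.Agent.Lib.MP_4fbe7c_an.ND

/-- Continuity of `x ↦ Σ_{k ≤ i ≤ n} f_i x`. -/
theorem cont_qv {p n : ℕ} {s : Set (Eu p)} {f : ℕ → Eu p → ℝ}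
    (cf : ∀ i, i ≤ n → ContinuousOn (f i) s) (k : ℕ) :
    ContinuousOn (fun x => qv n (fun i => f i x) k) s := by
  unfold qv
  exact continuousOn_finsetSum _ fun i hi =>
    cf i (by have := (Finset.mem_Ico.mp hi).2; omega)

/-- Continuity of `Fh`. -/
theorem cont_Fh (hPhi : PhiStatement) {p n : ℕ} {s : Set (Eu p)} {r : ℕ → Eu p → ℝ}
    (κ : ℕ → ℝ) (a b : ℝ) (cr : ∀ i, i ≤ n → ContinuousOn (r i) s) (pr : ∀ x ∈ s, 0 < r 0 x) :
    ContinuousOn (fun x => Fh n κ a b (fun i => r i x)) s := by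
  have cP : ContinuousOn Ph (Ioi 0) := fun t ht =>
    (hPhi.1 t ht).1.continuousAt.continuousWithinAt
  have c0 : ContinuousOn (fun x => Ph (r 0 x)) s := cP.comp (cr 0 (Nat.zero_le n)) pr
  have cN : ContinuousOn (fun x => Nq n κ a b (fun i => r i x)) s := by
    unfold Nq
    refine (continuousOn_const.mul ((cont_qv cr 1).pow 2)).add (continuousOn_const.mul ?_)
    exact continuousOn_finsetSum _ fun k _ => continuousOn_const.mul ((cont_qv cr k).pow 2)
  have ch : ContinuousOn (fun x => hw (qv n (fun i => r i x) 0)) s := by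
    unfold hw
    exact (continuousOn_const.add (Real.continuous_exp.comp_continuousOn
      (continuousOn_const.sub (continuousOn_const.mul (cont_qv cr 0))))).div_const 2
  unfold Fh
  exact (c0.add (((cont_qv cr 1).pow 2).div_const 2)).add ((ch.div_const 2).mul cN)

/-- The pointwise lower bound. -/
theorem pt_low (hPhi : PhiStatement) {n : ℕ} {K : ℝ} {κ : ℕ → ℝ} (hκ : Kap n K κ) {r : ℕ → ℝ}
    (h0 : 0 < r 0) {a b : ℝ} (ha : 0 ≤ a) (hb : 0 ≤ b) :
    (max 0 (1 - r 0)) ^ 3 / 3 + qv n r 1 ^ 2 / 2 ≤ Fh n κ a b r - 3 / 2 := by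
  obtain ⟨-, -, -, -, h1, h2⟩ := hPhi.1 _ h0
  have h3 : (max 0 (1 - r 0)) ^ 3 / 3 ≤ Ph (r 0) - 3 / 2 := by
    rcases le_total (r 0) 1 with h | h
    · rw [max_eq_right (by linarith)]
      linarith [h2 h]
    · rw [max_eq_left (by linarith)]
      linarith
  have h4 := Nq_nonneg hκ ha hb r
  have h5 := hw_pos (qv n r 0)
  have h6 : 0 ≤ hw (qv n r 0) / 2 * Nq n κ a b r := mul_nonneg (by linarith) h4
  unfold Fh
  linarith

theorem qv_div {n k : ℕ} (f : ℕ → ℝ) (t : ℝ) :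
    qv n (fun i => f i / t) k = qv n f k / t := by
  unfold qv
  rw [Finset.sum_div]

/-- The pointwise lower bound, with the weight `θ²`. -/
theorem pt_low' (hPhi : PhiStatement) {n : ℕ} {K : ℝ} {κ : ℕ → ℝ} (hκ : Kap n K κ) {f : ℕ → ℝ}
    (h0 : 0 < f 0) {a b θ B : ℝ} (ha : 0 ≤ a) (hb : 0 ≤ b) (hθ : 0 < θ) (hB : θ ≤ B) :
    1 / (3 * B) * (max 0 (θ - f 0)) ^ 3 + 1 / 2 * qv n f 1 ^ 2 ≤
      θ ^ 2 * Fh n κ a b (fun i => f i / θ) - θ ^ 2 * (3 / 2) := by
  have h1 := pt_low hPhi hκ (r := fun i => f i / θ) (div_pos h0 hθ) ha hb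
  rw [qv_div] at h1
  have h2 := mul_le_mul_of_nonneg_left h1 (sq_nonneg θ)
  have e1 : max 0 (1 - f 0 / θ) = max 0 (θ - f 0) / θ := by
    rw [← max_div_div_right hθ.le, zero_div, sub_div, div_self hθ.ne']
  have h3 : 0 ≤ max 0 (θ - f 0) := le_max_left _ _
  have e2 : θ ^ 2 * ((max 0 (θ - f 0) / θ) ^ 3 / 3 + (qv n f 1 / θ) ^ 2 / 2) =
      1 / (3 * θ) * (max 0 (θ - f 0)) ^ 3 + 1 / 2 * qv n f 1 ^ 2 := by
    field_simp
  simp only [e1] at h2
  rw [e2] at h2
  have h4 : 1 / (3 * B) * (max 0 (θ - f 0)) ^ 3 ≤ 1 / (3 * θ) * (max 0 (θ - f 0)) ^ 3 := by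
    apply mul_le_mul_of_nonneg_right _ (by positivity)
    exact div_le_div_of_nonneg_left one_pos.le (by positivity) (by linarith)
  linarith

/-- LOB. -/
theorem lob_st (hPhi : PhiStatement) (hSup : SupStatement) (hThl : ThlStatement) :
    LobWStatement := by
  intro p Ω q m θ θ' θ'' n ρ M K ε hΩ hW hθ hε
  obtain ⟨Kθ, -, hLθ⟩ := hThl p Ω q θ θ' θ'' hΩ hθ.c2 hθ.neu
  obtain ⟨l, B, hl, hlB, hb⟩ := stdy_bounds hΩ hθ
  have hB : 0 < B := lt_of_lt_of_le hl hlB
  have hM0 : 0 ≤ (n : ℝ) * |M| := by positivity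
  obtain ⟨δ₁, hδ₁, h1⟩ := hSup p Ω q ((3 * B ^ 2) * (Kθ + K)) (ε ^ 3) hΩ (by positivity)
  obtain ⟨δ₂, hδ₂, h2⟩ := hSup p Ω q ((2 * (n * |M|)) * (n * K)) (ε ^ 2) hΩ (by positivity)
  obtain ⟨η, hη⟩ : ∃ η : ℝ, η = min (min (1 / (3 * B) * δ₁) (1 / 2 * δ₂)) (ε / (2 * B)) :=
    ⟨_, rfl⟩
  have hη0 : 0 < η := by
    rw [hη]
    exact lt_min (lt_min (by positivity) (by positivity)) (by positivity)
  have hη1 : η ≤ 1 / (3 * B) * δ₁ := by
    rw [hη]; exact (min_le_left _ _).trans (min_le_left _ _)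
  have hη2 : η ≤ 1 / 2 * δ₂ := by
    rw [hη]; exact (min_le_left _ _).trans (min_le_right _ _)
  have hη3 : η * B ≤ ε / 2 := by
    have : η ≤ ε / (2 * B) := by rw [hη]; exact min_le_right _ _
    rw [le_div_iff₀ (by positivity)] at this
    linarith
  refine ⟨η, hη0, ?_⟩
  intro f hf hf0 hF
  have cθ : ContinuousOn θ (closure Ω) := hθ.c2.toC1.c0
  have cf : ∀ i, i ≤ n → ContinuousOn (f i) (closure Ω) := fun i hi => (hf i hi).1
  have pf : ∀ i, i ≤ n → ∀ x ∈ closure Ω, 0 < f i x := fun i hi x hx => ((hf i hi).2.2 x hx).1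
  have pθ : ∀ x ∈ closure Ω, 0 < θ x := hθ.pos
  have ha := wa_pos hW.nn
  have hbn := wb_nonneg (Kr ρ)
  obtain ⟨V, hV⟩ : ∃ V : Eu p → ℝ, V = fun x => qv n (fun i => f i x) 1 := ⟨_, rfl⟩
  obtain ⟨P, hP⟩ : ∃ P : Eu p → ℝ, P = fun x => max 0 (θ x - f 0 x) := ⟨_, rfl⟩
  have cV : ContinuousOn V (closure Ω) := by
    rw [hV]; exact cont_qv cf 1
  have cP : ContinuousOn P (closure Ω) := by
    rw [hP]; exact continuousOn_const.sup (cθ.sub (cf 0 (Nat.zero_le n)))
  have V0 : ∀ x ∈ closure Ω, 0 ≤ V x := by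
    intro x hx
    rw [hV]
    exact qv_nonneg fun i hi => (pf i hi x hx).le
  have VM : ∀ x ∈ closure Ω, V x ≤ n * |M| := by
    intro x hx
    rw [hV]
    show qv n (fun i => f i x) 1 ≤ _
    unfold qv
    refine (Finset.sum_le_sum (g := fun _ => |M|) fun i hi =>
      ((hf i (by have := (Finset.mem_Ico.mp hi).2; omega)).2.2 x hx).2.trans (le_abs_self M)).trans ?_
    rw [Finset.sum_const, Nat.card_Ico, nsmul_eq_mul, Nat.add_sub_cancel]
  have P0 : ∀ x, 0 ≤ P x := by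
    intro x
    rw [hP]
    exact le_max_left _ _
  have PB : ∀ x ∈ closure Ω, P x ≤ B := by
    intro x hx
    rw [hP]
    have := (hb x hx).2
    have h3 := pf 0 (Nat.zero_le n) x hx
    exact max_le hB.le (by linarith)
  have LV : LipOn Ω (n * K) V := by
    intro x hx y hy
    rw [hV]
    show |qv n (fun i => f i x) 1 - qv n (fun i => f i y) 1| ≤ _
    unfold qv
    rw [← Finset.sum_sub_distrib]
    refine (Finset.abs_sum_le_sum_abs _ _).trans ?_
    refine (Finset.sum_le_sum fun i hi =>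
      (hf i (by have := (Finset.mem_Ico.mp hi).2; omega)).2.1 x hx y hy).trans ?_
    rw [Finset.sum_const, Nat.card_Ico, nsmul_eq_mul, Nat.add_sub_cancel]
    linarith
  have LP : LipOn Ω (Kθ + K) P := by
    intro x hx y hy
    rw [hP]
    show |max 0 (θ x - f 0 x) - max 0 (θ y - f 0 y)| ≤ _
    have g1 : |max 0 (θ x - f 0 x) - max 0 (θ y - f 0 y)| ≤
        |(θ x - f 0 x) - (θ y - f 0 y)| := by
      have := abs_max_sub_max_le_abs (θ x - f 0 x) (θ y - f 0 y) 0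
      rw [max_comm 0, max_comm 0]
      exact this
    have a1 := hLθ x hx y hy
    have a2 := (hf 0 (Nat.zero_le n)).2.1 x hx y hy
    have a3 := abs_sub (θ x - θ y) (f 0 x - f 0 y)
    have e : (θ x - f 0 x) - (θ y - f 0 y) = (θ x - θ y) - (f 0 x - f 0 y) := by ring
    rw [e] at g1
    nlinarith
  have L1 : LipOn Ω ((3 * B ^ 2) * (Kθ + K)) (fun x => P x ^ 3) := by
    intro x hx y hy
    show |P x ^ 3 - P y ^ 3| ≤ _
    have e : P x ^ 3 - P y ^ 3 = (P x ^ 2 + P x * P y + P y ^ 2) * (P x - P y) := by ring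
    rw [e, abs_mul, mul_assoc]
    have b1 := PB x hx
    have b2 := PB y hy
    have b3 := P0 x
    have b4 := P0 y
    have g1 : |P x ^ 2 + P x * P y + P y ^ 2| ≤ 3 * B ^ 2 := by
      rw [abs_of_nonneg (by positivity)]
      have h3 : P x ^ 2 ≤ B ^ 2 := pow_le_pow_left₀ b3 b1 2
      have h4 : P y ^ 2 ≤ B ^ 2 := pow_le_pow_left₀ b4 b2 2
      have h5 : P x * P y ≤ B * B := mul_le_mul b1 b2 b4 hB.le
      nlinarith
    exact mul_le_mul g1 (LP x hx y hy) (abs_nonneg _) (by positivity)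
  have L2 : LipOn Ω ((2 * (n * |M|)) * (n * K)) (fun x => V x ^ 2) := by
    intro x hx y hy
    show |V x ^ 2 - V y ^ 2| ≤ _
    have e : V x ^ 2 - V y ^ 2 = (V x + V y) * (V x - V y) := by ring
    rw [e, abs_mul, mul_assoc]
    have g1 : |V x + V y| ≤ 2 * (n * |M|) := by
      have a1 := V0 x hx
      have a2 := V0 y hy
      have a3 := VM x hx
      have a4 := VM y hy
      rw [abs_of_nonneg (by linarith)]
      linarith
    exact mul_le_mul g1 (LV x hx y hy) (abs_nonneg _) (by positivity)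
  -- the pointwise inequality
  have key : ∀ x ∈ closure Ω, 1 / (3 * B) * P x ^ 3 + 1 / 2 * V x ^ 2 ≤
      θ x ^ 2 * Fh n (kr ρ) (wa (Kr ρ)) (wb (Kr ρ)) (fun i => f i x / θ x)
        - θ x ^ 2 * (3 / 2) := by
    intro x hx
    rw [hP, hV]
    exact pt_low' hPhi hW.kap (f := fun i => f i x) (pf 0 (Nat.zero_le n) x hx) ha.le hbn
      (pθ x hx) (hb x hx).2
  have cI : ContinuousOn (fun x => θ x ^ 2 * Fh n (kr ρ) (wa (Kr ρ)) (wb (Kr ρ))
      (fun i => f i x / θ x)) (closure Ω) := by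
    refine (cθ.pow 2).mul (cont_Fh hPhi _ _ _ (r := fun i x => f i x / θ x) ?_ ?_)
    · intro i hi
      exact (cf i hi).div cθ fun x hx => (pθ x hx).ne'
    · intro x hx
      exact div_pos (pf 0 (Nat.zero_le n) x hx) (pθ x hx)
  have cJ : ContinuousOn (fun x => θ x ^ 2 * (3 / 2)) (closure Ω) :=
    (cθ.pow 2).mul continuousOn_const
  have cD1 : ContinuousOn (fun x => 1 / (3 * B) * P x ^ 3) (closure Ω) :=
    continuousOn_const.mul (cP.pow 3)
  have cD2 : ContinuousOn (fun x => 1 / 2 * V x ^ 2) (closure Ω) :=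
    continuousOn_const.mul (cV.pow 2)
  have hint : ∫ x in Ω, (1 / (3 * B) * P x ^ 3 + 1 / 2 * V x ^ 2) < η := by
    have g1 := setIntegral_mono_on (μ := volume) (hΩ.integrableOn (cD1.add cD2))
      (hΩ.integrableOn (cI.sub cJ)) hΩ.measurableSet
      (fun x hx => key x (subset_closure hx))
    have g2 : ∫ x in Ω, (θ x ^ 2 * Fh n (kr ρ) (wa (Kr ρ)) (wb (Kr ρ))
        (fun i => f i x / θ x) - θ x ^ 2 * (3 / 2)) = FuW Ω n ρ θ f - FuWE Ω θ := by
      rw [integral_sub (hΩ.integrableOn cI) (hΩ.integrableOn cJ)]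
      rfl
    have g3 : ∫ x in Ω, (1 / (3 * B) * P x ^ 3 + 1 / 2 * V x ^ 2) ≤
        FuW Ω n ρ θ f - FuWE Ω θ := by
      rw [← g2]
      exact g1
    linarith
  have i1 : ∫ x in Ω, |P x ^ 3| < δ₁ := by
    have g1 : ∫ x in Ω, 1 / (3 * B) * |P x ^ 3| ≤
        ∫ x in Ω, (1 / (3 * B) * P x ^ 3 + 1 / 2 * V x ^ 2) := by
      refine setIntegral_mono_on (hΩ.integrableOn ?_) (hΩ.integrableOn (cD1.add cD2))
        hΩ.measurableSet ?_
      · exact continuousOn_const.mul (cP.pow 3).abs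
      · intro x hx
        rw [abs_of_nonneg (pow_nonneg (P0 x) 3)]
        nlinarith [sq_nonneg (V x)]
    rw [integral_const_mul] at g1
    have g2 := lt_of_le_of_lt g1 (lt_of_lt_of_le hint hη1)
    exact lt_of_mul_lt_mul_left g2 (by positivity)
  have i2 : ∫ x in Ω, |V x ^ 2| < δ₂ := by
    have g1 : ∫ x in Ω, 1 / 2 * |V x ^ 2| ≤
        ∫ x in Ω, (1 / (3 * B) * P x ^ 3 + 1 / 2 * V x ^ 2) := by
      refine setIntegral_mono_on (hΩ.integrableOn ?_) (hΩ.integrableOn (cD1.add cD2))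
        hΩ.measurableSet ?_
      · exact continuousOn_const.mul (cV.pow 2).abs
      · intro x hx
        rw [abs_of_nonneg (sq_nonneg (V x))]
        have h3 : 0 ≤ 1 / (3 * B) * P x ^ 3 := by
          have := P0 x
          positivity
        linarith
    rw [integral_const_mul] at g1
    have g2 := lt_of_le_of_lt g1 (lt_of_lt_of_le hint hη2)
    exact lt_of_mul_lt_mul_left g2 (by norm_num)
  have j1 := h1 _ L1 i1
  have j2 := h2 _ L2 i2
  intro x hx
  have k1 : P x < ε := by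
    have := j1 x hx
    rw [abs_of_nonneg (pow_nonneg (P0 x) 3)] at this
    exact lt_of_pow_lt_pow_left₀ 3 hε.le this
  have k2 : V x < ε := by
    have := j2 x hx
    rw [abs_of_nonneg (sq_nonneg (V x))] at this
    exact lt_of_pow_lt_pow_left₀ 2 hε.le this
  constructor
  · have k3 : θ x - f 0 x ≤ P x := by
      rw [hP]
      exact le_max_right _ _
    have k4 := hf0 x hx
    have k5 : η * θ x ≤ η * B := mul_le_mul_of_nonneg_left (hb x hx).2 hη0.le
    rw [abs_lt]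
    constructor <;> linarith
  · intro i hi1 hin
    refine lt_of_le_of_lt ?_ k2
    rw [hV]
    show f i x ≤ qv n (fun j => f j x) 1
    unfold qv
    exact Finset.single_le_sum (f := fun j => f j x) (fun j hj =>
      (pf j (by have := (Finset.mem_Ico.mp hj).2; omega) x hx).le)
      (Finset.mem_Ico.mpr ⟨hi1, by omega⟩)

end Pool.Agent.Lib.MP_4fbe7c_an.WN.H31
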